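import Pool.Agent.Helper58.SF.StN

/-!
Project SF, module EXT: homeomorphisms of the boundary curves extend to the cells (cone).
-/

set_option autoImplicit false

namespace Pool.Agent.Helper62.SF

open Set Topology Pool.Agent.Helper13.TR Pool.Agent.Helper58.SF
open Pool.Agent.Helper13.TW (IsArc Spl IsSCC dch Chn Splt GT CSy MP Val LR MCell StARB StARX StSCL StUAR StINF StLIN StAC1 StSDM StLRC StBF StMD1 StMD2 StMD3)

/-- The cone of a homeomorphism of the circle. -/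
private lemma cone_ext (k : ℂ → ℂ) (hc : ContinuousOn k (Metric.sphere 0 1))
    (hi : InjOn k (Metric.sphere 0 1)) (him : k '' Metric.sphere 0 1 = Metric.sphere 0 1) :
    ∃ K : ℂ → ℂ, Continuous K ∧ InjOn K (Metric.closedBall 0 1) ∧
      K '' Metric.closedBall 0 1 = Metric.closedBall 0 1 ∧ ∀ z ∈ Metric.sphere (0 : ℂ) 1, K z = k z := by
  have hunit : ∀ z : ℂ, z ≠ 0 → z / (‖z‖ : ℂ) ∈ Metric.sphere (0 : ℂ) 1 := by
    intro z hz
    have h0 : ‖z‖ ≠ 0 := norm_ne_zero_iff.mpr hz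
    rw [mem_sphere_zero_iff_norm, norm_div, Complex.norm_real, norm_norm, div_self h0]
  have hk : ∀ u ∈ Metric.sphere (0 : ℂ) 1, ‖k u‖ = 1 := by
    intro u hu
    have : k u ∈ Metric.sphere (0 : ℂ) 1 := him ▸ mem_image_of_mem k hu
    exact mem_sphere_zero_iff_norm.mp this
  obtain ⟨K, hK⟩ : ∃ K : ℂ → ℂ, ∀ z, K z = (‖z‖ : ℂ) * k (z / (‖z‖ : ℂ)) := ⟨_, fun _ => rfl⟩
  have hK0 : K 0 = 0 := by rw [hK]; simp
  have hn : ∀ z, ‖K z‖ = ‖z‖ := by
    intro z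
    by_cases hz : z = 0
    · rw [hz, hK0]
    · rw [hK, norm_mul, Complex.norm_real, norm_norm, hk _ (hunit z hz), mul_one]
  refine ⟨K, ?_, ?_, ?_, ?_⟩
  · rw [continuous_iff_continuousAt]
    intro z
    by_cases hz : z = 0
    · rw [hz]
      rw [Metric.continuousAt_iff]
      intro ε hε
      refine ⟨ε, hε, fun {x} hx => ?_⟩
      rw [hK0, dist_zero_right, hn]
      rwa [dist_zero_right] at hx
    · have hU : IsOpen {x : ℂ | x ≠ 0} := isOpen_ne
      have h1 : ContinuousOn (fun x : ℂ => (‖x‖ : ℂ)) {x : ℂ | x ≠ 0} :=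
        (Complex.continuous_ofReal.comp continuous_norm).continuousOn
      have h2 : ContinuousOn (fun x : ℂ => x / (‖x‖ : ℂ)) {x : ℂ | x ≠ 0} := by
        refine continuousOn_id.div h1 ?_
        intro x hx
        have : ‖x‖ ≠ 0 := norm_ne_zero_iff.mpr hx
        exact_mod_cast this
      have h3 : ContinuousOn K {x : ℂ | x ≠ 0} := by
        have h4 : ContinuousOn (fun x : ℂ => (‖x‖ : ℂ) * k (x / (‖x‖ : ℂ))) {x : ℂ | x ≠ 0} :=
          h1.mul (hc.comp h2 (fun x hx => hunit x hx))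
        exact h4.congr (fun x _ => hK x)
      exact h3.continuousAt (hU.mem_nhds hz)
  · intro z _ z' _ he
    have h1 : ‖z‖ = ‖z'‖ := by rw [← hn z, ← hn z', he]
    by_cases hz : z = 0
    · rw [hz] at h1 ⊢
      rw [norm_zero] at h1
      exact (norm_eq_zero.mp h1.symm).symm
    · have hz' : z' ≠ 0 := by
        intro h
        rw [h, norm_zero] at h1
        exact hz (norm_eq_zero.mp h1)
      have h0 : (‖z'‖ : ℂ) ≠ 0 := by exact_mod_cast norm_ne_zero_iff.mpr hz'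
      rw [hK, hK, h1] at he
      have h2 := mul_left_cancel₀ h0 he
      have h3 : z / (‖z'‖ : ℂ) = z' / (‖z'‖ : ℂ) :=
        hi (h1 ▸ hunit z hz) (hunit z' hz') h2
      exact (div_left_inj' h0).mp h3
  · apply Subset.antisymm
    · rintro _ ⟨z, hz, rfl⟩
      rw [mem_closedBall_zero_iff] at hz ⊢
      rwa [hn]
    · intro y hy
      by_cases hy0 : y = 0
      · exact ⟨0, by simp, by rw [hK0, hy0]⟩
      · have h1 : y / (‖y‖ : ℂ) ∈ k '' Metric.sphere 0 1 := him.symm ▸ hunit y hy0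
        obtain ⟨u, hu, hku⟩ := h1
        have h0 : (‖y‖ : ℂ) ≠ 0 := by exact_mod_cast norm_ne_zero_iff.mpr hy0
        have hu1 : ‖u‖ = 1 := mem_sphere_zero_iff_norm.mp hu
        have hnz : ‖(‖y‖ : ℂ) * u‖ = ‖y‖ := by
          rw [norm_mul, Complex.norm_real, norm_norm, hu1, mul_one]
        refine ⟨(‖y‖ : ℂ) * u, ?_, ?_⟩
        · rw [mem_closedBall_zero_iff] at hy ⊢
          rwa [hnz]
        · rw [hK, hnz, mul_div_cancel_left₀ _ h0, hku, mul_div_cancel₀ _ h0]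
  · intro z hz
    have h1 : ‖z‖ = 1 := mem_sphere_zero_iff_norm.mp hz
    rw [hK, h1]
    simp

/-- EXT. -/
theorem hEXT : StBF → StMD2 → StMD3 → StEXT := by
  intro hBF hMD2 hMD3 X _ cell hcell E J hEJ E' J' hE'J' g hgc hgi hgJ
  have hsys : CSy MCell := ⟨hMD2.1, hMD2.2, hMD3⟩
  have hB : MCell (Metric.closedBall 0 1) (Metric.sphere 0 1) :=
    ⟨Homeomorph.refl ℂ, by simp, by simp⟩
  obtain ⟨φ, hφ⟩ := hBF X ℂ cell MCell hcell hsys E J _ _ hEJ hB
  obtain ⟨w, hwE, hwJ⟩ := hE'J'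
  have hJE : J ⊆ E := (hcell.cpt E J hEJ).2.1
  -- the inverse of the chart, on the sphere, has values in `J`
  have hsym : ∀ (z : ℂ) (hz : z ∈ Metric.closedBall (0 : ℂ) 1), z ∈ Metric.sphere (0 : ℂ) 1 →
      ((φ.symm ⟨z, hz⟩ : ↥E) : X) ∈ J := by
    intro z hz hs
    rw [hφ]
    rw [φ.apply_symm_apply]
    exact hs
  have hsb : Metric.sphere (0 : ℂ) 1 ⊆ Metric.closedBall 0 1 := Metric.sphere_subset_closedBall
  classical
  obtain ⟨k, hk⟩ : ∃ k : ℂ → ℂ, ∀ (z : ℂ) (hz : z ∈ Metric.closedBall (0 : ℂ) 1),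
      k z = w.symm (g (φ.symm ⟨z, hz⟩ : ↥E)) :=
    ⟨fun z => if hz : z ∈ Metric.closedBall (0 : ℂ) 1 then w.symm (g (φ.symm ⟨z, hz⟩ : ↥E)) else 0,
      fun z hz => by simp only [dif_pos hz]⟩
  have hkc : ContinuousOn k (Metric.sphere 0 1) := by
    rw [continuousOn_iff_continuous_domRestrict]
    have h1 : Continuous (fun z : ↥(Metric.sphere (0 : ℂ) 1) =>
        (⟨((φ.symm ⟨(z : ℂ), hsb z.2⟩ : ↥E) : X), hsym z (hsb z.2) z.2⟩ : ↥J)) := by
      refine Continuous.subtype_mk ?_ _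
      exact continuous_subtype_val.comp (φ.symm.continuous.comp
        (Continuous.subtype_mk continuous_subtype_val _))
    have h2 : Continuous (J.domRestrict g) := continuousOn_iff_continuous_domRestrict.mp hgc
    have h3 := w.symm.continuous.comp (h2.comp h1)
    refine h3.congr ?_
    intro z
    exact (hk z (hsb z.2)).symm
  have hki : InjOn k (Metric.sphere 0 1) := by
    intro z hz z' hz' he
    rw [hk z (hsb hz), hk z' (hsb hz')] at he
    have h1 := w.symm.injective he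
    have h2 := hgi (hsym z (hsb hz) hz) (hsym z' (hsb hz') hz') h1
    have h3 := φ.symm.injective (Subtype.ext h2)
    exact congrArg Subtype.val h3
  have hkim : k '' Metric.sphere 0 1 = Metric.sphere 0 1 := by
    apply Subset.antisymm
    · rintro _ ⟨z, hz, rfl⟩
      rw [hk z (hsb hz)]
      have h1 : g (φ.symm ⟨z, hsb hz⟩ : ↥E) ∈ J' := hgJ ▸ mem_image_of_mem g (hsym z (hsb hz) hz)
      rw [← hwJ] at h1
      obtain ⟨u, hu, he⟩ := h1
      rw [← he, w.symm_apply_apply]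
      exact hu
    · intro y hy
      have h1 : w y ∈ g '' J := by
        rw [hgJ, ← hwJ]
        exact mem_image_of_mem w hy
      obtain ⟨x, hx, he⟩ := h1
      have hxs : ((φ ⟨x, hJE hx⟩ : ↥(Metric.closedBall (0 : ℂ) 1)) : ℂ) ∈ Metric.sphere (0 : ℂ) 1 :=
        (hφ ⟨x, hJE hx⟩).mp hx
      refine ⟨_, hxs, ?_⟩
      rw [hk _ (hsb hxs)]
      have h2 : (⟨((φ ⟨x, hJE hx⟩ : ↥(Metric.closedBall (0 : ℂ) 1)) : ℂ), hsb hxs⟩ :
          ↥(Metric.closedBall (0 : ℂ) 1)) = φ ⟨x, hJE hx⟩ := rfl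
      rw [h2, φ.symm_apply_apply, he, w.symm_apply_apply]
  obtain ⟨K, hKc, hKi, hKim, hKk⟩ := cone_ext k hkc hki hkim
  obtain ⟨f, hf⟩ : ∃ f : X → ℂ, ∀ (x : X) (hx : x ∈ E), f x = w (K (φ ⟨x, hx⟩ : ↥(Metric.closedBall (0 : ℂ) 1))) :=
    ⟨fun x => if hx : x ∈ E then w (K (φ ⟨x, hx⟩ : ↥(Metric.closedBall (0 : ℂ) 1))) else 0,
      fun x hx => by simp only [dif_pos hx]⟩
  refine ⟨f, ?_, ?_, ?_, ?_⟩
  · rw [continuousOn_iff_continuous_domRestrict]
    have h3 := w.continuous.comp (hKc.comp (continuous_subtype_val.comp φ.continuous))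
    refine h3.congr ?_
    intro x
    exact (hf x x.2).symm
  · intro x hx y hy he
    rw [hf x hx, hf y hy] at he
    have h1 := w.injective he
    have h2 := hKi (φ ⟨x, hx⟩).2 (φ ⟨y, hy⟩).2 h1
    have h3 := φ.injective (Subtype.ext h2)
    exact congrArg Subtype.val h3
  · apply Subset.antisymm
    · rintro _ ⟨x, hx, rfl⟩
      rw [hf x hx, ← hwE]
      refine mem_image_of_mem w ?_
      have h5 : K ((φ ⟨x, hx⟩ : ↥(Metric.closedBall (0 : ℂ) 1)) : ℂ) ∈ K '' Metric.closedBall 0 1 :=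
        mem_image_of_mem K (φ ⟨x, hx⟩).2
      exact hKim.subset h5
    · intro y hy
      rw [← hwE] at hy
      obtain ⟨v, hv, rfl⟩ := hy
      rw [← hKim] at hv
      obtain ⟨u, hu, rfl⟩ := hv
      refine ⟨((φ.symm ⟨u, hu⟩ : ↥E) : X), (φ.symm ⟨u, hu⟩).2, ?_⟩
      rw [hf _ (φ.symm ⟨u, hu⟩).2]
      have h2 : (⟨((φ.symm ⟨u, hu⟩ : ↥E) : X), (φ.symm ⟨u, hu⟩).2⟩ : ↥E) = φ.symm ⟨u, hu⟩ := rfl
      rw [h2, φ.apply_symm_apply]
  · intro y hy
    have hys : ((φ ⟨y, hJE hy⟩ : ↥(Metric.closedBall (0 : ℂ) 1)) : ℂ) ∈ Metric.sphere (0 : ℂ) 1 :=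
      (hφ ⟨y, hJE hy⟩).mp hy
    rw [hf y (hJE hy), hKk _ hys, hk _ (hsb hys)]
    have h2 : (⟨((φ ⟨y, hJE hy⟩ : ↥(Metric.closedBall (0 : ℂ) 1)) : ℂ), hsb hys⟩ :
        ↥(Metric.closedBall (0 : ℂ) 1)) = φ ⟨y, hJE hy⟩ := rfl
    rw [h2, φ.symm_apply_apply, w.apply_symm_apply]

end Pool.Agent.Helper62.SF
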